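import Pool.Agent.Run7.h904.StmtA

/-!
Pairs of loxodromic automorphisms, one of which is rescaled by a number of large height, have no
common periodic points off a fixed curve.
-/

open OnePoint Run7.h904

/-- Let `α ≠ β` and `α' ≠ β'` be algebraic numbers, none of them `±2`. There is a constant `C` such
that for every nonzero complex number `μ` which is transcendental or of height larger than `C`, the
surface `X = surfX ⟨α, β, 1⟩ ⟨α', β', μ⟩` is smooth and irreducible, carries two loxodromic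
automorphisms `f` and `g`, the lifts of the fourth iterates of the two plane maps
`(b, c) ↦ (c, r(c)/b)`, which satisfy `f ^ m ≠ g ^ n` for all integers `m ≠ 0` and `n`, and all
common periodic points of `f` and `g` lie on the curve where the second or the third coordinate is
`0` or `∞`; in particular they are not Zariski dense. -/
theorem Pool.Agent.Results.MP_7e4c85_ag.ScaledPair.result {α β α' β' : ℂ}
    (hα : IsAlgebraic ℚ α) (hβ : IsAlgebraic ℚ β) (hα' : IsAlgebraic ℚ α')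
    (hβ' : IsAlgebraic ℚ β') (hne : α ≠ β) (hne' : α' ≠ β')
    (h1 : α ^ 2 ≠ 4) (h2 : β ^ 2 ≠ 4) (h3 : α' ^ 2 ≠ 4) (h4 : β' ^ 2 ≠ 4) :
    ∃ C : ℝ, ∀ μ : ℂ, μ ≠ 0 → HeightGt C μ →
      IsSmoothSurface (surfX ⟨α, β, 1⟩ ⟨α', β', μ⟩) ∧ IsIrred (surfX ⟨α, β, 1⟩ ⟨α', β', μ⟩) ∧
      ∃ f g : Equiv.Perm (surfX ⟨α, β, 1⟩ ⟨α', β', μ⟩),
        IsAutomorphism _ f ∧ IsAutomorphism _ g ∧
        IsFourthIterate ⟨α, β, 1⟩ f ∧ IsFourthIterate ⟨α', β', μ⟩ g ∧
        IsLoxodromic _ f ∧ IsLoxodromic _ g ∧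
        (∀ m n : ℤ, m ≠ 0 → f ^ m ≠ g ^ n) ∧
        (∀ x, IsPeriodic f x → IsPeriodic g x →
          x.1 1 = ((0 : ℂ) : P1) ∨ x.1 1 = ∞ ∨ x.1 2 = ((0 : ℂ) : P1) ∨ x.1 2 = ∞) ∧
        ¬ IsZariskiDense (surfX ⟨α, β, 1⟩ ⟨α', β', μ⟩)
          {y | ∃ x, x.1 = y ∧ IsPeriodic f x ∧ IsPeriodic g x} :=
  Par.main_scaled hα hβ hα' hβ' hne hne' h1 h2 h3 h4
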